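import Pool.Agent.H4.IsoC

set_option autoImplicit false

open Filter Topology

namespace Pool.Agent.Results.MP_932050_co.TwoD

/-- Q2 with the absolute constant `C_k = 2`: for fixed `k ≥ 1` and `α ∈ [0,1]`, every family of
pairwise equi-isoclinic `k`-dimensional subspaces of `ℝ^d` with angle `α` has at most
`2 d + o(d)` members. -/
theorem result :
    ∀ k : ℕ, 1 ≤ k → ∀ α : ℝ, 0 ≤ α → α ≤ 1 →
      ∃ f : ℕ → ℝ, Tendsto (fun d : ℕ => f d / d) atTop (𝓝 0) ∧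
        ∀ d : ℕ, ∀ S : Finset (Submodule ℝ (EuclideanSpace ℝ (Fin d))),
          (∀ U ∈ S, Module.finrank ℝ U = k) →
          (∀ U ∈ S, ∀ V ∈ S, U ≠ V → ∀ u ∈ U, ‖u‖ = 1 → ‖V.starProjection u‖ = α) →
          (S.card : ℝ) ≤ 2 * d + f d :=
  fun k hk α h0 h1 => Pool.Agent.H4.Iso.little_o k hk α h0 h1

end Pool.Agent.Results.MP_932050_co.TwoD
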